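import Pool.Agent.Helper97.Trom.J_domain_eq
import Pool.Agent.Helper97.Trom.J_disc
import Pool.Agent.Helper97.Trom.J_limitSet_mono
import Pool.Agent.Helper97.Trom.J_F_limit_infinite
import Pool.Agent.Helper97.Trom.J_GW_fg
import Pool.Agent.Helper97.Trom.J_G_SO
import Pool.Agent.Helper97.Trom.J_F_le_G
import Pool.Agent.Helper97.Trom.J_F_normal_map
import Pool.Agent.Helper97.Trom.J_F_index
import Pool.Agent.Helper97.Trom.J_free_nbhd
import Pool.Agent.Helper97.Trom.J_Om_comp
import Pool.Agent.Helper97.Trom.J_Om_pathconn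
import Pool.Agent.Helper97.Trom.J_not_sc
import Pool.Agent.Helper97.Trom.J_fg_quot
import Pool.Agent.Helper97.Trom.J_F_fg

/-!
# A disproof: finite generation of `π₁(Ω/F)` does not force `Ω` to be simply connected

There are finitely generated Kleinian groups `F ⊲ G` in `SO⁺(1,4)` with `[G:F] = ∞`, `F`
non-elementary, and a `G`-invariant component `Ω` of the domain of discontinuity such that the
fundamental group of `Ω/F` is finitely generated, but `Ω` is not simply connected.
-/

open Trom Set Topology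

namespace Pool.Agent.Results.MP_6d80d4_gt.Disproof

theorem fg_map {K : Subgroup W} (h : K.FG) : (K.map rW).FG := by
  classical
  obtain ⟨S, hS⟩ := h
  refine ⟨S.image rW, ?_⟩
  rw [Finset.coe_image, ← MonoidHom.map_closure, hS]

/-- There are finitely generated discrete groups `F ⊲ G` of orientation preserving isometries of
`ℍ⁴`, of infinite index, `F` non-elementary, and a `G`-invariant component `Ω` of the domain of
discontinuity of `G` on which `G` acts freely, such that `Ω` is not simply connected but the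
fundamental group of `Ω/F` is finitely generated. -/
theorem result : ∃ (F G : Subgroup Opl) (Ω : Set Sph),
    G ≤ SOpl ∧ IsDisc G ∧ F.FG ∧ G.FG ∧
    F ≤ G ∧ (F.subgroupOf G).Normal ∧ (F.subgroupOf G).index = 0 ∧
    (limitSet F).Infinite ∧
    (∃ x ∈ (limitSet G)ᶜ, Ω = connectedComponentIn (limitSet G)ᶜ x) ∧
    (∀ g ∈ G, (fun x : Sph => g • x) '' Ω = Ω) ∧
    (∀ g ∈ G, g ≠ 1 → ∀ x ∈ Ω, g • x ≠ x) ∧
    PathConnectedSpace Ω ∧ ¬ SimplyConnectedSpace Ω ∧
    ∀ x : Ω, Group.FG (FundamentalGroup (Quotient (orbSetoid F Ω)) (Quotient.mk _ x)) := by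
  have hinf : inf ∈ Om := P0_sub_Om ⟨0, inf_mem 0 (by decide)⟩
  refine ⟨FW.map rW, GW.map rW, Om, G_SO, ?_, F_fg, fg_map GW_fg, Subgroup.map_mono F_le_G,
    F_normal_map, F_index, F_limit_infinite, ⟨inf, ?_, Om_comp⟩, ?_, ?_,
    isPathConnected_iff_pathConnectedSpace.1 Om_pathconn, not_sc, fg_quot⟩
  · -- discreteness
    intro R
    refine (disc R).subset ?_
    rintro A ⟨hA, hA'⟩
    refine ⟨?_, hA'⟩
    obtain ⟨w, _, rfl⟩ := hA
    exact ⟨w, rfl⟩
  · rw [domain_eq, Om_union]
    exact Or.inl hinf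
  · -- invariance
    rintro _ ⟨w, _, rfl⟩
    ext y
    constructor
    · rintro ⟨x, hx, rfl⟩
      exact Om_smul w hx
    · intro hy
      refine ⟨w⁻¹ • y, Om_smul w⁻¹ hy, ?_⟩
      change rW w • (rW w⁻¹ • y) = y
      rw [map_inv, smul_inv_smul]
  · -- freeness
    rintro _ ⟨w, hw, rfl⟩ hne x hx hfix
    obtain ⟨U, hU, h⟩ := free_nbhd x hx
    have hxU := mem_of_mem_nhds hU
    have hfix' : w • x = x := hfix
    have h1 := h w hw x hxU (by rw [hfix']; exact hxU)
    exact hne (by rw [h1, map_one])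

end Pool.Agent.Results.MP_6d80d4_gt.Disproof
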